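import Pool.Agent.U260.GZ.Stm

/-! Project GDZ, job DIA (helper894): the diagonal part of the approximate functional equation. -/

set_option autoImplicit false

namespace Pool.Agent.U894.GZ

open Pool.Agent.N879.GD
open Pool.Agent.Y969.GP (V ht PS co S_V)
open Pool.Agent.U260.GZ (S_DI1)

lemma key_pow {ε u m : ℝ} (hε : 0 < ε) (hu : 1 ≤ u) (hm : u ^ (1 + ε) ≤ m) :
    (m / u) ^ (-((1 + ε) / ε)) ≤ m⁻¹ := by
  have hu0 : 0 < u := by linarith
  have h1 : (1 : ℝ) ≤ u ^ (1 + ε) := Real.one_le_rpow hu (by linarith)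
  have hm1 : 1 ≤ m := h1.trans hm
  have hm0 : 0 < m := by linarith
  have h2 : u ≤ m ^ (1 / (1 + ε)) := by
    have h3 : (u ^ (1 + ε)) ^ (1 / (1 + ε)) ≤ m ^ (1 / (1 + ε)) :=
      Real.rpow_le_rpow (by positivity) hm (by positivity)
    rw [← Real.rpow_mul hu0.le, mul_one_div_cancel (by linarith), Real.rpow_one] at h3
    exact h3
  have h4 : m ^ (ε / (1 + ε)) ≤ m / u := by
    rw [le_div_iff₀ hu0]
    calc m ^ (ε / (1 + ε)) * u ≤ m ^ (ε / (1 + ε)) * m ^ (1 / (1 + ε)) := by gcongr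
      _ = m := by
        rw [← Real.rpow_add hm0]
        have : ε / (1 + ε) + 1 / (1 + ε) = 1 := by field_simp; ring
        rw [this, Real.rpow_one]
  calc (m / u) ^ (-((1 + ε) / ε)) ≤ (m ^ (ε / (1 + ε))) ^ (-((1 + ε) / ε)) :=
        Real.rpow_le_rpow_of_nonpos (by positivity) h4 (by
          have : 0 < (1 + ε) / ε := by positivity
          linarith)
    _ = m⁻¹ := by
        rw [← Real.rpow_mul hm0.le]
        have : ε / (1 + ε) * -((1 + ε) / ε) = -1 := by field_simp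
        rw [this, Real.rpow_neg_one]

lemma term_bound {ε u CA : ℝ} (hε : 0 < ε) (hu : 1 ≤ u) (hCA : 0 < CA)
    (hV : ∀ x : ℝ, 0 < x → V x ≤ CA * x ^ (-((1 + ε) / ε))) (n : ℕ)
    (hn : u ^ (1 + ε) ≤ ((n : ℝ) + 1) ^ 2) :
    2 / ((n : ℝ) + 1) * V (2 * Real.pi * ((n : ℝ) + 1) ^ 2 / u) ≤
      2 * CA * u ^ (-(1 / 2 : ℝ)) * (1 / ((n : ℝ) + 1) ^ 2) := by
  have hu0 : 0 < u := by linarith
  set m : ℝ := ((n : ℝ) + 1) ^ 2 with hmdef
  have hn0 : (0 : ℝ) < (n : ℝ) + 1 := by positivity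
  have hm0 : 0 < m := by positivity
  have h1 := key_pow hε hu hn
  have hexp : -((1 + ε) / ε) ≤ 0 := by
    have : 0 < (1 + ε) / ε := by positivity
    linarith
  have h2 : V (2 * Real.pi * m / u) ≤ CA * m⁻¹ := by
    refine (hV _ (by positivity)).trans ?_
    gcongr
    refine le_trans ?_ h1
    apply Real.rpow_le_rpow_of_nonpos (by positivity) _ hexp
    have hpi : (1 : ℝ) ≤ 2 * Real.pi := by nlinarith [Real.pi_gt_three]
    gcongr
    nlinarith
  have hum : u ≤ m := by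
    refine le_trans ?_ hn
    calc u = u ^ (1 : ℝ) := (Real.rpow_one u).symm
      _ ≤ u ^ (1 + ε) := Real.rpow_le_rpow_of_exponent_le hu (by linarith)
  have h3 : m⁻¹ ≤ u ^ (-(1 / 2 : ℝ)) * (1 / ((n : ℝ) + 1)) := by
    have h4 : m ^ (-(1 / 2 : ℝ)) = 1 / ((n : ℝ) + 1) := by
      rw [hmdef, ← Real.rpow_natCast, ← Real.rpow_mul hn0.le]
      have : ((2 : ℕ) : ℝ) * -(1 / 2) = -1 := by norm_num
      rw [this, Real.rpow_neg_one, one_div]
    have h5 : m ^ (-(1 / 2 : ℝ)) ≤ u ^ (-(1 / 2 : ℝ)) :=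
      Real.rpow_le_rpow_of_nonpos hu0 hum (by norm_num)
    have h6 : m⁻¹ = m ^ (-(1 / 2 : ℝ)) * m ^ (-(1 / 2 : ℝ)) := by
      rw [← Real.rpow_add hm0, ← Real.rpow_neg_one]; norm_num
    rw [h6]
    nth_rewrite 2 [h4]
    gcongr
  calc 2 / ((n : ℝ) + 1) * V (2 * Real.pi * m / u) ≤ 2 / ((n : ℝ) + 1) * (CA * m⁻¹) := by gcongr
    _ ≤ 2 / ((n : ℝ) + 1) * (CA * (u ^ (-(1 / 2 : ℝ)) * (1 / ((n : ℝ) + 1)))) := by gcongr
    _ = 2 * CA * u ^ (-(1 / 2 : ℝ)) * (1 / m) := by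
      rw [hmdef]; field_simp

lemma diag_eq (X : ℕ) (u : ℝ) :
    ∑ p ∈ (PS X).filter (fun p => p.1 = p.2), co p u =
      ∑ n ∈ (Finset.range X).filter (fun n => (n + 1) * (n + 1) ≤ X),
        2 / ((n : ℝ) + 1) * V (2 * Real.pi * ((n : ℝ) + 1) ^ 2 / u) := by
  symm
  refine Finset.sum_nbij' (fun n => (n + 1, n + 1)) (fun p => p.1 - 1) ?_ ?_ ?_ ?_ ?_
  · intro n hn
    rw [Finset.mem_filter, Finset.mem_range] at hn
    have h1 : n + 1 ∈ Finset.Icc 1 X := Finset.mem_Icc.2 ⟨by omega, by omega⟩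
    exact Finset.mem_filter.2 ⟨Finset.mem_filter.2 ⟨Finset.mem_product.2 ⟨h1, h1⟩, hn.2⟩, rfl⟩
  · rintro ⟨a, b⟩ hp
    rw [Finset.mem_filter, PS, Finset.mem_filter, Finset.mem_product, Finset.mem_Icc] at hp
    obtain ⟨⟨⟨⟨h1, h2⟩, _⟩, h3⟩, h4⟩ := hp
    simp only at h1 h2 h3 h4
    subst h4
    rw [Finset.mem_filter, Finset.mem_range]
    simp only
    have : a - 1 + 1 = a := by omega
    rw [this]
    exact ⟨by omega, h3⟩
  · intro n _
    simp
  · rintro ⟨a, b⟩ hp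
    rw [Finset.mem_filter, PS, Finset.mem_filter, Finset.mem_product, Finset.mem_Icc] at hp
    obtain ⟨⟨⟨⟨h1, h2⟩, _⟩, h3⟩, h4⟩ := hp
    simp only at h1 h2 h3 h4
    subst h4
    have : a - 1 + 1 = a := by omega
    simp only [this]
  · intro n _
    have hn0 : (0 : ℝ) ≤ (n : ℝ) + 1 := by positivity
    simp only [co, ht]
    push_cast
    rw [Real.sqrt_mul_self hn0, ← pow_two]
    ring_nf

theorem t_DIA (h1 : S_DI1) (h2 : S_V) : S_DIA := by
  intro ε hε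
  obtain ⟨C1, hC1, h1⟩ := h1
  obtain ⟨hV01, -, -, -, -, hVA, -⟩ := h2
  obtain ⟨CA, hCA, hVA⟩ := hVA ((1 + ε) / ε) (by positivity)
  have hZs : Summable (fun n : ℕ => 1 / ((n : ℝ) + 1) ^ 2) := by
    have := (summable_nat_add_iff 1).2 (Real.summable_one_div_nat_pow.2 (by norm_num : 1 < 2))
    refine this.congr fun n => ?_
    push_cast
    rfl
  set Z : ℝ := ∑' n : ℕ, 1 / ((n : ℝ) + 1) ^ 2 with hZ
  have hZ0 : 0 ≤ Z := tsum_nonneg fun n => by positivity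
  refine ⟨2 * CA * Z + C1, by positivity, ?_⟩
  intro u X hu hX
  have hu0 : 0 < u := by linarith
  obtain ⟨hs, hb⟩ := h1 u hu
  rw [diag_eq]
  set g : ℕ → ℝ := fun n => 2 / ((n : ℝ) + 1) * V (2 * Real.pi * ((n : ℝ) + 1) ^ 2 / u) with hg
  set F := (Finset.range X).filter (fun n => (n + 1) * (n + 1) ≤ X) with hF
  have hg0 : ∀ n, 0 ≤ g n := by
    intro n
    have := (hV01 (2 * Real.pi * ((n : ℝ) + 1) ^ 2 / u) (by positivity)).1
    simp only [hg]
    positivity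
  have hS : HasSum g (∑' n, g n) := hs.hasSum
  have hS' : HasSum (fun n => if n ∈ F then g n else 0) (∑ n ∈ F, g n) := by
    have e : ∑ n ∈ F, g n = ∑ b ∈ F, (if b ∈ F then g b else 0) :=
      (Finset.sum_congr rfl fun b hb => if_pos hb).symm
    rw [e]
    exact hasSum_sum_of_ne_finset_zero (fun b hb => if_neg hb)
  have hd := hS.sub hS'
  have hK : HasSum (fun n : ℕ => 2 * CA * u ^ (-(1 / 2 : ℝ)) * (1 / ((n : ℝ) + 1) ^ 2))
      (2 * CA * u ^ (-(1 / 2 : ℝ)) * Z) := hZs.hasSum.mul_left _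
  have hle : ∑' n, g n - ∑ n ∈ F, g n ≤ 2 * CA * u ^ (-(1 / 2 : ℝ)) * Z := by
    refine hasSum_le ?_ hd hK
    intro n
    by_cases hn : n ∈ F
    · simp only [if_pos hn, sub_self]
      positivity
    · simp only [if_neg hn, sub_zero]
      apply term_bound hε hu hCA hVA
      have h3 : X < (n + 1) * (n + 1) := by
        rw [hF, Finset.mem_filter, Finset.mem_range] at hn
        by_contra h4
        rw [not_lt] at h4
        apply hn
        refine ⟨?_, h4⟩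
        nlinarith
      have h4 : (X : ℝ) < ((n : ℝ) + 1) ^ 2 := by
        rw [pow_two]
        exact_mod_cast h3
      linarith
  have hge : 0 ≤ ∑' n, g n - ∑ n ∈ F, g n := by
    refine hd.nonneg ?_
    intro n
    by_cases hn : n ∈ F
    · simp only [if_pos hn, sub_self]; exact le_refl 0
    · simp only [if_neg hn, sub_zero]; exact hg0 n
  calc |∑ n ∈ F, g n - D0 u| = |(∑' n, g n - D0 u) - (∑' n, g n - ∑ n ∈ F, g n)| := by
        congr 1; ring
    _ ≤ |∑' n, g n - D0 u| + |∑' n, g n - ∑ n ∈ F, g n| := abs_sub _ _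
    _ ≤ C1 * u ^ (-(1 / 2 : ℝ)) + 2 * CA * u ^ (-(1 / 2 : ℝ)) * Z := by
        rw [abs_of_nonneg hge]
        exact add_le_add hb hle
    _ = (2 * CA * Z + C1) * u ^ (-(1 / 2 : ℝ)) := by ring

end Pool.Agent.U894.GZ
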